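import Mathlib
import Pool.Agent.H79.Wave.ThmB

set_option autoImplicit false

namespace Pool.Agent.H94.Kept.SmallSupportData

open MeasureTheory Set SchwartzMap Pool.Agent.H79.Wave

/-- Local smoothing in dimension `d = 3` for every `p ≥ 3 = p_d` (`s_p = 1 - 2/p`), for initial positions of
frequency at most `1/δ` carried by a set which has dimension at most `α` at all scales between `δ` and `1`:
the gain is every `σ < min(1, 3 - α)/p`, and `σ = 1/p` if `α < 2`. -/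
theorem result (p α σ A M : ℝ) (hp : 3 ≤ p) (hA : 0 ≤ A) (hM : 0 ≤ M) (hσ : σ ≤ 1 / p)
    (hσα : σ < (3 - α) / p) :
    ∃ C : NNReal, ∀ (δ : ℝ) (E : Set (EuclideanSpace ℝ (Fin 3))) (u₀ : 𝓢(EuclideanSpace ℝ (Fin 3), ℂ)),
      0 < δ → δ ≤ 1 → IsClosed E →
      volume E ≤ ENNReal.ofReal (A * δ ^ (3 - α)) →
      (∀ x ∈ E, ∀ r : ℝ, δ ≤ r → r ≤ 1 →
        volume (E ∩ Metric.ball x r) ≤ ENNReal.ofReal (A * δ ^ (3 - α) * r ^ α)) →
      (∀ x, x ∉ E → u₀ x = 0) →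
      ENNReal.ofReal δ * eLpNorm (fderiv ℝ u₀) (ENNReal.ofReal p) volume ≤
        ENNReal.ofReal M * eLpNorm u₀ (ENNReal.ofReal p) volume →
      (∫⁻ t in Icc (1 : ℝ) 2, eLpNorm (fun x => cosSol u₀ t x) (ENNReal.ofReal p) volume ^ p) ^ (1 / p) ≤
        (C : ENNReal) * ENNReal.ofReal (δ ^ (-((1 - 2 / p) - σ))) * eLpNorm u₀ (ENNReal.ofReal p) volume := by
  obtain ⟨C, hC⟩ := thmB p α σ A M hp hA hM hσ hσα
  exact ⟨C, fun δ E u₀ hδ hδ1 hE hE1 hE2 hu hfreq => hC δ hδ hδ1 E hE hE1 hE2 u₀ hu hfreq⟩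

end Pool.Agent.H94.Kept.SmallSupportData
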